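import Pool.Agent.Hhelper60.CqFinal

/-!
# A zero-dimensional space `X` with `C_p(X, 2)` Lindelof whose square has none of the three
covering properties of the question: it is not Lindelof, not metacompact and not subparacompact.

Work in ZFC (Lean with choice).  The space is `X = E ∪ {y_t : t ∈ A}` where `E` is countable and
`A` is a subset of the Cantor set `2^ω`; every `y_t` is the limit of a sequence of points of `E`
which is chosen, by a transfinite Bernstein type recursion of length continuum, so that fusion
arguments succeed; hence `C_p(X, 2)` is Lindelof.  In the square there is a closed set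
parametrised by all sequences `κ : ℕ → 2^ω` of branches and an open cover of the square whose
members meet this closed set like the countable power of a Michael line; a Baire category
argument shows that this cover has neither a point-finite open refinement nor a sigma-discrete
closed refinement.
-/

namespace Pool.Agent.Results.MP_ad67b9_gt.NoCoveringProperty

/-- `C_p(X, D)` for the two-point discrete space `D`: the continuous functions `X → Bool` with the
topology inherited from the product topology on `X → Bool` (pointwise convergence). -/
abbrev Cp (X : Type) [TopologicalSpace X] : Type := {f : X → Bool // Continuous f}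

/-- Metacompactness: every open cover has a point-finite open refinement. -/
def IsMetacompact (Y : Type) [TopologicalSpace Y] : Prop :=
  ∀ U : Set (Set Y), (∀ u ∈ U, IsOpen u) → ⋃₀ U = Set.univ →
    ∃ V : Set (Set Y), (∀ v ∈ V, IsOpen v) ∧ ⋃₀ V = Set.univ ∧ (∀ v ∈ V, ∃ u ∈ U, v ⊆ u) ∧
      ∀ y, {v ∈ V | y ∈ v}.Finite

/-- A family of sets is discrete if every point has an open neighbourhood that meets at most one
member of the family. -/
def IsDiscreteFamily {Y : Type} [TopologicalSpace Y] (F : Set (Set Y)) : Prop :=
  ∀ y : Y, ∃ W : Set Y, IsOpen W ∧ y ∈ W ∧ {s ∈ F | (s ∩ W).Nonempty}.Subsingleton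

/-- Subparacompactness: every open cover has a sigma-discrete closed refinement, i.e. there are
countably many discrete families `F n` of closed sets which together cover the space, every
member being contained in a member of the given cover. -/
def IsSubparacompact (Y : Type) [TopologicalSpace Y] : Prop :=
  ∀ U : Set (Set Y), (∀ u ∈ U, IsOpen u) → ⋃₀ U = Set.univ →
    ∃ F : ℕ → Set (Set Y), (∀ n, ∀ s ∈ F n, IsClosed s) ∧ (∀ n, IsDiscreteFamily (F n)) ∧
      (⋃ n, ⋃₀ F n = Set.univ) ∧ ∀ n, ∀ s ∈ F n, ∃ u ∈ U, s ⊆ u

/-- There is a Tychonoff zero-dimensional space `X` such that `C_p(X, D)` is Lindelof, while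
`C_p(X, D) × C_p(X, D)` is neither Lindelof nor metacompact nor subparacompact. -/
theorem result : ∃ (X : Type) (_ : TopologicalSpace X), T35Space X ∧
    TopologicalSpace.IsTopologicalBasis {s : Set X | IsClopen s} ∧
    LindelofSpace (Cp X) ∧ ¬ LindelofSpace (Cp X × Cp X) ∧ ¬ IsMetacompact (Cp X × Cp X) ∧
    ¬ IsSubparacompact (Cp X × Cp X) :=
  Pool.Agent.Hhelper60.Cq.exists_space

end Pool.Agent.Results.MP_ad67b9_gt.NoCoveringProperty
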